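import Pool.Agent.Lib.MP_d55432_al.SIX.Iface

/-!
# SIX: NRM3 and NRM2, norms from the torus to the ring of invariants
-/

namespace Pool.Agent.Lib.MP_d55432_al.SIX.H66

open MvPolynomial

variable {K : Type*} [Field K]

theorem isIntegral_of_X {n : ℕ}
    (ψ : MvPolynomial (Fin n) K →ₐ[K] MvPolynomial (Fin n) K)
    (h : ∀ i, ψ.toRingHom.IsIntegralElem (X i)) : ψ.toRingHom.IsIntegral := by
  intro p
  induction p using MvPolynomial.induction_on with
  | C a =>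
    have h1 := ψ.toRingHom.isIntegralElem_map (x := C a)
    have h2 : ψ.toRingHom (C a) = C a := ψ.commutes a
    rwa [h2] at h1
  | add p q hp hq => exact RingHom.IsIntegralElem.add _ hp hq
  | mul_X p i hp => exact RingHom.IsIntegralElem.mul _ hp (h i)

theorem exists_norm_gen {n : ℕ}
    (ψ : MvPolynomial (Fin n) K →ₐ[K] MvPolynomial (Fin n) K)
    (h : ∀ i, ψ.toRingHom.IsIntegralElem (X i)) (G : MvPolynomial (Fin n) K) (hG : G ≠ 0) :
    ∃ Φ, Φ ≠ 0 ∧ G ∣ ψ Φ := by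
  have h1 := @Ideal.comap_ne_bot_of_integral_mem (MvPolynomial (Fin n) K) _
    (MvPolynomial (Fin n) K) _ (Ideal.span {G}) ψ.toRingHom.toAlgebra _ _ G hG
    (Ideal.mem_span_singleton_self G) (isIntegral_of_X ψ h G)
  obtain ⟨Φ, hΦ, hΦ0⟩ := Submodule.exists_mem_ne_zero_of_ne_bot h1
  exact ⟨Φ, hΦ0, Ideal.mem_span_singleton.1 (Ideal.mem_comap.1 hΦ)⟩

theorem eval_aeval {n m : ℕ} (B : Fin n → MvPolynomial (Fin m) K) (Φ : MvPolynomial (Fin n) K)
    (x : Fin m → K) : eval x (aeval B Φ) = eval (fun i => eval x (B i)) Φ := by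
  induction Φ using MvPolynomial.induction_on with
  | C a => simp
  | add p q hp hq => rw [map_add, map_add, map_add, hp, hq]
  | mul_X p i hp => rw [map_mul, map_mul, map_mul, hp, aeval_X, eval_X]

theorem nrm_gen {n : ℕ} (B : Fin n → MvPolynomial (Fin n) K)
    (h : ∀ i, (aeval B : MvPolynomial (Fin n) K →ₐ[K] _).toRingHom.IsIntegralElem (X i))
    (G : MvPolynomial (Fin n) K) (hG : G ≠ 0) : ∃ Φ : MvPolynomial (Fin n) K, Φ ≠ 0 ∧
      ∀ l : Fin n → K, eval l G = 0 → eval (fun i => eval l (B i)) Φ = 0 := by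
  obtain ⟨Φ, hΦ, R, hR⟩ := exists_norm_gen _ h G hG
  refine ⟨Φ, hΦ, fun l hl => ?_⟩
  rw [← eval_aeval, hR, map_mul, hl, zero_mul]

/-- The invariants on the torus of `sl₄`. -/
noncomputable def B3 (κ : K) : Fin 3 → MvPolynomial (Fin 3) K :=
  ![-(X 0 ^ 2 + X 1 ^ 2 + X 2 ^ 2 + (X 0 + X 1 + X 2) ^ 2),
    C (1 / κ ^ 2) * (C (1 / 4) * (X 0 ^ 2 + X 1 ^ 2 + X 2 ^ 2 + (X 0 + X 1 + X 2) ^ 2) ^ 2 -
      (X 0 ^ 4 + X 1 ^ 4 + X 2 ^ 4 + (X 0 + X 1 + X 2) ^ 4)),
    (C (1 / (3 * κ)) * (X 0 ^ 3 + X 1 ^ 3 + X 2 ^ 3 - (X 0 + X 1 + X 2) ^ 3)) ^ 2]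

/-- The invariants on the torus of elements with `tr X ^ 3 = 0`. -/
noncomputable def B2 (κ : K) : Fin 2 → MvPolynomial (Fin 2) K :=
  ![-(2 * X 0 ^ 2 + 2 * X 1 ^ 2),
    C (1 / κ ^ 2) * (C (1 / 4) * (2 * X 0 ^ 2 + 2 * X 1 ^ 2) ^ 2 - (2 * X 0 ^ 4 + 2 * X 1 ^ 4))]

theorem nrm3 [CharZero K] : NRM3_S K := by
  intro κ hκ G hG
  have hroot : ∀ i, (aeval (B3 κ) : MvPolynomial (Fin 3) K →ₐ[K] _).toRingHom.IsIntegralElem
      (X i) := by
    intro i
    refine ⟨(Polynomial.X ^ 4 + Polynomial.C (C (1 / 2) * X 0) * Polynomial.X ^ 2 +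
      Polynomial.C (C (1 / 16) * X 0 ^ 2 + C (κ ^ 2 / 4) * X 1)) ^ 2 -
      Polynomial.C (C (κ ^ 2) * X 2) * Polynomial.X ^ 2, ?_, ?_⟩
    · monicity!
    · apply MvPolynomial.funext
      intro v
      have h0 : (aeval (B3 κ) : MvPolynomial (Fin 3) K →ₐ[K] _).toRingHom (X 0) = B3 κ 0 :=
        aeval_X _ _
      have h1 : (aeval (B3 κ) : MvPolynomial (Fin 3) K →ₐ[K] _).toRingHom (X 1) = B3 κ 1 :=
        aeval_X _ _
      have h2 : (aeval (B3 κ) : MvPolynomial (Fin 3) K →ₐ[K] _).toRingHom (X 2) = B3 κ 2 :=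
        aeval_X _ _
      have hc : ∀ a : K, (aeval (B3 κ) : MvPolynomial (Fin 3) K →ₐ[K] _).toRingHom (C a) = C a :=
        fun a => AlgHom.commutes _ a
      simp only [Polynomial.eval₂_sub, Polynomial.eval₂_add, Polynomial.eval₂_mul,
        Polynomial.eval₂_pow, Polynomial.eval₂_X, Polynomial.eval₂_C, map_add, map_mul, map_pow,
        h0, h1, h2, hc, map_sub, eval_C, eval_X, map_zero]
      fin_cases i
      · simp [B3]
        field_simp
        ring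
      · simp [B3]
        field_simp
        ring
      · simp [B3]
        field_simp
        ring
  obtain ⟨Φ, hΦ, h⟩ := nrm_gen (B3 κ) hroot G hG
  refine ⟨Φ, hΦ, fun l hl => ?_⟩
  have h1 := h l hl
  have h2 : (fun i => eval l (B3 κ i)) =
      ![-ps3 l 2, (ps3 l 2 ^ 2 / 4 - ps3 l 4) / κ ^ 2, (ps3 l 3 / (3 * κ)) ^ 2] := by
    funext i
    fin_cases i
    · simp [B3, ps3]
      ring
    · simp [B3, ps3]
      ring
    · simp [B3, ps3]
      ring
  rwa [h2] at h1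

theorem nrm2 [CharZero K] : NRM2_S K := by
  intro κ hκ G hG
  have hroot : ∀ i, (aeval (B2 κ) : MvPolynomial (Fin 2) K →ₐ[K] _).toRingHom.IsIntegralElem
      (X i) := by
    intro i
    refine ⟨Polynomial.X ^ 4 + Polynomial.C (C (1 / 2) * X 0) * Polynomial.X ^ 2 +
      Polynomial.C (C (1 / 16) * X 0 ^ 2 + C (κ ^ 2 / 4) * X 1), ?_, ?_⟩
    · monicity!
    · apply MvPolynomial.funext
      intro v
      have h0 : (aeval (B2 κ) : MvPolynomial (Fin 2) K →ₐ[K] _).toRingHom (X 0) = B2 κ 0 :=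
        aeval_X _ _
      have h1 : (aeval (B2 κ) : MvPolynomial (Fin 2) K →ₐ[K] _).toRingHom (X 1) = B2 κ 1 :=
        aeval_X _ _
      have hc : ∀ a : K, (aeval (B2 κ) : MvPolynomial (Fin 2) K →ₐ[K] _).toRingHom (C a) = C a :=
        fun a => AlgHom.commutes _ a
      simp only [Polynomial.eval₂_sub, Polynomial.eval₂_add, Polynomial.eval₂_mul,
        Polynomial.eval₂_pow, Polynomial.eval₂_X, Polynomial.eval₂_C, map_add, map_mul, map_pow,
        h0, h1, hc, map_sub, eval_C, eval_X, map_zero]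
      fin_cases i
      · simp [B2]
        field_simp
        ring
      · simp [B2]
        field_simp
        ring
  obtain ⟨Φ, hΦ, h⟩ := nrm_gen (B2 κ) hroot G hG
  refine ⟨Φ, hΦ, fun l hl => ?_⟩
  have h1 := h l hl
  have h2 : (fun i => eval l (B2 κ i)) =
      ![-ps2 l 2, (ps2 l 2 ^ 2 / 4 - ps2 l 4) / κ ^ 2] := by
    funext i
    fin_cases i
    · simp [B2, ps2]
      ring
    · simp [B2, ps2]
      ring
  rwa [h2] at h1

end Pool.Agent.Lib.MP_d55432_al.SIX.H66
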