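import Pool.Agent.Lib.MP_d55432_al.SIX.Iface

/-!
# SIX: POLY, the map `F4L` is a homogeneous polynomial map
-/

namespace Pool.Agent.Lib.MP_d55432_al.SIX.H66

open Matrix LieAlgebra

attribute [local instance 100] LieRing.ofAssociativeRing

variable {K : Type*} [Field K]

section closure

variable {X : Type*} (A : Subalgebra K (X → K))

/-- Matrix valued functions with entries in `A`. -/
def MPf (M : X → M4 K) : Prop := ∀ i j, (fun a => M a i j) ∈ A

variable {A}

theorem MPf.mul {M N : X → M4 K} (hM : MPf A M) (hN : MPf A N) : MPf A (fun a => M a * N a) := by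
  intro i j
  have h : (fun a => (M a * N a) i j) = ∑ k, (fun a => M a i k) * (fun a => N a k j) := by
    funext a
    rw [Finset.sum_apply, Matrix.mul_apply]
    rfl
  rw [h]
  exact Subalgebra.sum_mem _ fun k _ => A.mul_mem (hM i k) (hN k j)

theorem MPf.add {M N : X → M4 K} (hM : MPf A M) (hN : MPf A N) : MPf A (fun a => M a + N a) :=
  fun i j => A.add_mem (hM i j) (hN i j)

theorem MPf.sub {M N : X → M4 K} (hM : MPf A M) (hN : MPf A N) : MPf A (fun a => M a - N a) :=
  fun i j => A.sub_mem (hM i j) (hN i j)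

theorem MPf.neg {M : X → M4 K} (hM : MPf A M) : MPf A (fun a => -M a) :=
  fun i j => A.neg_mem (hM i j)

theorem MPf.smul {c : X → K} (hc : c ∈ A) {M : X → M4 K} (hM : MPf A M) :
    MPf A (fun a => c a • M a) := fun i j => A.mul_mem hc (hM i j)

theorem MPf.one : MPf A (fun _ : X => (1 : M4 K)) :=
  fun i j => A.algebraMap_mem ((1 : M4 K) i j)

theorem MPf.trace {M : X → M4 K} (hM : MPf A M) : (fun a => (M a).trace) ∈ A := by
  have h : (fun a => (M a).trace) = ∑ i, (fun a => M a i i) := by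
    funext a
    rw [Finset.sum_apply]
    rfl
  rw [h]
  exact Subalgebra.sum_mem _ fun i _ => hM i i

theorem div_mem {c : X → K} (hc : c ∈ A) (k : K) : (fun a => c a / k) ∈ A := by
  have h := A.smul_mem hc (1 / k)
  have h2 : ((1 / k) • c) = fun a => c a / k := by
    funext a
    rw [Pi.smul_apply, smul_eq_mul]
    ring
  rwa [h2] at h

theorem MPf.sq4 {M : X → M4 K} (hM : MPf A M) : MPf A (fun a => sq4 (M a)) :=
  (hM.mul hM).sub (MPf.smul (div_mem (hM.mul hM).trace 4) MPf.one)

theorem MPf.adj4 {M : X → M4 K} (hM : MPf A M) : MPf A (fun a => adj4 (M a)) := by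
  have h2 := hM.mul hM
  have h3 := h2.mul hM
  refine ((h3.neg.add (MPf.smul hM.trace h2)).sub (MPf.smul (div_mem (A.sub_mem
    (A.pow_mem hM.trace 2) h2.trace) 2) hM)).add (MPf.smul (div_mem (A.add_mem (A.sub_mem
    (A.pow_mem hM.trace 3) (A.mul_mem (A.mul_mem (A.algebraMap_mem 3) hM.trace) h2.trace))
    (A.mul_mem (A.algebraMap_mem 2) h3.trace)) 6) MPf.one)

theorem MPf.lin4 {M N : X → M4 K} (hM : MPf A M) (hN : MPf A N) :
    MPf A (fun a => lin4 (M a) (N a)) :=
  (MPf.smul (hM.mul hN).trace MPf.one).sub (MPf.smul hN.trace hM)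

theorem MPf.w4 {M N : X → M4 K} (hM : MPf A M) (hN : MPf A N) :
    MPf A (fun a => w4 (M a) (N a)) := by
  have hY := ((hM.mul hN).sub (hN.mul hM)).adj4
  have hl := hM.lin4 hY
  exact ((hl.mul hY).sq4.add (hY.mul hl).sq4).sq4

theorem MPf.F4 {M N P Q : X → M4 K} (hM : MPf A M) (hN : MPf A N) (hP : MPf A P)
    (hQ : MPf A Q) : MPf A (fun a => F4 (M a) (N a) (P a) (Q a)) := by
  have hw := hM.w4 hN
  exact MPf.smul ((hQ.mul hQ).mul hQ).trace ((hw.mul hP).sub (hP.mul hw)).sq4

end closure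

section scaling

theorem sq4_smul (c : K) (X : M4 K) : sq4 (c • X) = c ^ 2 • sq4 X := by
  simp only [sq4, Matrix.smul_mul, Matrix.mul_smul, smul_smul, trace_smul, smul_sub, smul_eq_mul]
  congr 2 <;> ring

theorem adj4_smul (c : K) (X : M4 K) : adj4 (c • X) = c ^ 3 • adj4 X := by
  simp only [adj4, Matrix.smul_mul, Matrix.mul_smul, smul_smul, trace_smul, smul_sub, smul_add,
    smul_neg, smul_eq_mul]
  congr 1
  · congr 1
    · congr 1
      · congr 2; ring
      · congr 1; ring
    · congr 1; ring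
  · congr 1; ring

theorem lin4_smul (t c : K) (a Y : M4 K) : lin4 (t • a) (c • Y) = (t * c) • lin4 a Y := by
  simp only [lin4, Matrix.smul_mul, Matrix.mul_smul, smul_smul, trace_smul, smul_sub, smul_eq_mul]
  congr 2 <;> ring

theorem w4_smul (t : K) (a x : M4 K) : w4 (t • a) (t • x) = t ^ 52 • w4 a x := by
  have h1 : (t • a) * (t • x) - (t • x) * (t • a) = (t ^ 2) • (a * x - x * a) := by
    simp only [Matrix.smul_mul, Matrix.mul_smul, smul_smul, smul_sub]
    congr 2 <;> ring
  have h2 : adj4 ((t • a) * (t • x) - (t • x) * (t • a)) = t ^ 6 • adj4 (a * x - x * a) := by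
    rw [h1, adj4_smul]; congr 1; ring
  unfold w4
  rw [h2, lin4_smul, Matrix.smul_mul, Matrix.mul_smul, Matrix.smul_mul, Matrix.mul_smul,
    smul_smul, smul_smul, sq4_smul, sq4_smul]
  have h3 : (t * t ^ 6 * t ^ 6) ^ 2 = t ^ 26 := by ring
  have h4 : (t ^ 6 * (t * t ^ 6)) ^ 2 = t ^ 26 := by ring
  rw [h3, h4, ← smul_add, sq4_smul]
  congr 1
  ring

theorem F4_smul (t : K) (a x y b : M4 K) :
    F4 (t • a) (t • x) (t • y) (t • b) = t ^ 109 • F4 a x y b := by
  have h1 : (t ^ 52 • w4 a x) * (t • y) - (t • y) * (t ^ 52 • w4 a x) =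
      t ^ 53 • (w4 a x * y - y * w4 a x) := by
    simp only [Matrix.smul_mul, Matrix.mul_smul, smul_smul, smul_sub]
    congr 2
    all_goals ring
  have h2 : ((t • b) * (t • b) * (t • b)).trace = t ^ 3 * (b * b * b).trace := by
    simp only [Matrix.smul_mul, Matrix.mul_smul, smul_smul, trace_smul, smul_eq_mul]
    congr 1
    ring
  unfold F4
  rw [w4_smul, h1, h2, sq4_smul, smul_smul, smul_smul]
  congr 1
  ring

end scaling

theorem poly [CharZero K] : POLY_S K := by
  intro Θ
  refine ⟨?_, ?_⟩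
  · intro ψ
    -- the linear form as a combination of the entries
    let χ : L4 K →ₗ[K] K := ψ ∘ₗ (Θ.symm.toLinearEquiv : L4 K →ₗ[K] L6 K)
    obtain ⟨ρ, hρ⟩ := LinearMap.exists_extend (p := (LieAlgebra.SpecialLinear.sl (Fin 4)
      K).toSubmodule) χ
    have h1 : ∀ Z : L4 K, ψ (Θ.symm Z) = ρ Z.1 := by
      intro Z
      exact (LinearMap.congr_fun hρ Z).symm
    have h2 : ∀ M : M4 K, ρ M = ∑ i, ∑ j, ρ (Matrix.single i j 1) * M i j := by
      intro M
      conv_lhs => rw [Matrix.matrix_eq_sum_single M]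
      rw [map_sum]
      refine Finset.sum_congr rfl fun i _ => ?_
      rw [map_sum]
      refine Finset.sum_congr rfl fun j _ => ?_
      have : Matrix.single i j (M i j) = M i j • Matrix.single i j (1 : K) := by
        rw [Matrix.smul_single, smul_eq_mul, mul_one]
      rw [this, map_smul, smul_eq_mul, mul_comm]
    have hbase : ∀ k : Fin 4, MPf (PolyFun K (L6 K) (Fin 4))
        (fun a : Fin 4 → L6 K => (Θ (a k)).1) := by
      intro k i j
      let θ : Module.Dual K (L6 K) :=
        { toFun := fun x => (Θ x).1 i j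
          map_add' := fun x y => by rw [map_add]; rfl
          map_smul' := fun c x => by rw [map_smul]; rfl }
      exact Algebra.subset_adjoin ⟨k, θ, rfl⟩
    have hF := (hbase 0).F4 (hbase 1) (hbase 2) (hbase 3)
    have h3 : (fun a : Fin 4 → L6 K => ψ (Θ.symm (F4L (Θ (a 0)) (Θ (a 1)) (Θ (a 2)) (Θ (a 3))))) =
        ∑ i, ∑ j, ρ (Matrix.single i j 1) • (fun a : Fin 4 → L6 K =>
          F4 (Θ (a 0)).1 (Θ (a 1)).1 (Θ (a 2)).1 (Θ (a 3)).1 i j) := by
      funext a
      rw [h1, h2, Finset.sum_apply]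
      refine Finset.sum_congr rfl fun i _ => ?_
      rw [Finset.sum_apply]
      rfl
    rw [h3]
    exact Subalgebra.sum_mem _ fun i _ => Subalgebra.sum_mem _ fun j _ =>
      Subalgebra.smul_mem _ (hF i j) _
  · intro t a
    apply Subtype.ext
    have h : ∀ k, (Θ ((t • a) k)).1 = t • (Θ (a k)).1 := by
      intro k
      rw [Pi.smul_apply, map_smul]
      rfl
    change F4 _ _ _ _ = t ^ 109 • F4 _ _ _ _
    rw [h, h, h, h]
    exact F4_smul t _ _ _ _

end Pool.Agent.Lib.MP_d55432_al.SIX.H66
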