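import Pool.Agent.Lib.MP_d55432_al.SIX.H66.Poly
import Pool.Agent.Lib.MP_d55432_al.H66.Relation

/-!
# SIX: REL3, a non-dense invariant set satisfies a relation
-/

namespace Pool.Agent.Lib.MP_d55432_al.SIX.H66

open Matrix LieAlgebra MvPolynomial
open Pool.Agent.Lib.MP_d55432_al.H66 (exists_poly_linear)

attribute [local instance 100] LieRing.ofAssociativeRing

variable {K : Type*} [Field K]

/-- Traces of powers of a conjugate of a diagonal matrix. -/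
theorem trace_pow_conj (g h : M4 K) (hhg : h * g = 1) (v : Fin 4 → K) :
    ((g * diagonal v * h) * (g * diagonal v * h)).trace = ∑ i, v i ^ 2 ∧
    ((g * diagonal v * h) * (g * diagonal v * h) * (g * diagonal v * h)).trace = ∑ i, v i ^ 3 ∧
    ((g * diagonal v * h) * (g * diagonal v * h) * (g * diagonal v * h) *
      (g * diagonal v * h)).trace = ∑ i, v i ^ 4 := by
  have h1 : ∀ P Q : M4 K, (g * P * h) * (g * Q * h) = g * (P * Q) * h := by
    intro P Q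
    calc (g * P * h) * (g * Q * h) = g * P * (h * g) * Q * h := by
          simp only [Matrix.mul_assoc]
      _ = _ := by rw [hhg, Matrix.mul_one]; simp only [Matrix.mul_assoc]
  have h2 : ∀ P : M4 K, (g * P * h).trace = P.trace := by
    intro P
    rw [trace_mul_comm, ← Matrix.mul_assoc, hhg, Matrix.one_mul]
  refine ⟨?_, ?_, ?_⟩
  · rw [h1, h2, diagonal_mul_diagonal, trace_diagonal]
    exact Finset.sum_congr rfl fun i _ => by ring
  · rw [h1, h1, h2, diagonal_mul_diagonal, diagonal_mul_diagonal, trace_diagonal]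
    exact Finset.sum_congr rfl fun i _ => by ring
  · rw [h1, h1, h1, h2, diagonal_mul_diagonal, diagonal_mul_diagonal, diagonal_mul_diagonal,
      trace_diagonal]
    exact Finset.sum_congr rfl fun i _ => by ring

/-- The diagonal matrix with entries `l 0, l 1, l 2, -(l 0 + l 1 + l 2)`. -/
def dv3 (l : Fin 3 → K) : Fin 4 → K := ![l 0, l 1, l 2, -(l 0 + l 1 + l 2)]

theorem trace_dv3 (l : Fin 3 → K) : (diagonal (dv3 l)).trace = 0 := by
  rw [trace_diagonal, Fin.sum_univ_four]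
  simp only [dv3, Matrix.cons_val_zero, Matrix.cons_val_one, Matrix.cons_val]
  ring

theorem sum_dv3 (l : Fin 3 → K) (k : ℕ) : ∑ i, dv3 l i ^ k = ps3 l k := by
  rw [Fin.sum_univ_four]
  simp only [dv3, ps3, Matrix.cons_val_zero, Matrix.cons_val_one, Matrix.cons_val]

/-- The torus as a linear map. -/
def tor3 (Θ : L6 K ≃ₗ⁅K⁆ L4 K) : (Fin 3 → K) →ₗ[K] L6 K where
  toFun l := Θ.symm (mk4 (diagonal (dv3 l)) (trace_dv3 l))
  map_add' l l' := by
    rw [← map_add]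
    congr 1
    apply Subtype.ext
    change diagonal _ = diagonal _ + diagonal _
    rw [diagonal_add]
    congr 1
    funext i
    fin_cases i <;> simp [dv3]
    ring
  map_smul' c l := by
    rw [RingHom.id_apply, ← map_smul]
    congr 1
    apply Subtype.ext
    change diagonal _ = c • diagonal _
    rw [← diagonal_smul]
    congr 1
    funext i
    fin_cases i <;> simp [dv3]
    ring

theorem tor3_apply (Θ : L6 K ≃ₗ⁅K⁆ L4 K) (l : Fin 3 → K) :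
    tor3 Θ l = Θ.symm (mk4 (diagonal (dv3 l)) (trace_dv3 l)) := rfl

/-- The discriminant as a function on `so₆`. -/
def dsc (Θ : L6 K ≃ₗ⁅K⁆ L4 K) (x : L6 K) : K :=
  disc4 (-((Θ x).1 * (Θ x).1).trace / 2) (((Θ x).1 * (Θ x).1 * (Θ x).1).trace ^ 2 / 9)
    (((Θ x).1 * (Θ x).1).trace ^ 2 / 8 - ((Θ x).1 * (Θ x).1 * (Θ x).1 * (Θ x).1).trace / 4)

/-- The discriminant as a polynomial in the invariants. -/
noncomputable def dscP (κ : K) : MvPolynomial (Fin 3) K :=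
  16 * (C (1 / 2) * X 0) ^ 4 * (C (1 / 16) * X 0 ^ 2 + C (κ ^ 2 / 4) * X 1) -
    4 * (C (1 / 2) * X 0) ^ 3 * (C (κ ^ 2) * X 2) -
    128 * (C (1 / 2) * X 0) ^ 2 * (C (1 / 16) * X 0 ^ 2 + C (κ ^ 2 / 4) * X 1) ^ 2 +
    144 * (C (1 / 2) * X 0) * (C (κ ^ 2) * X 2) *
      (C (1 / 16) * X 0 ^ 2 + C (κ ^ 2 / 4) * X 1) - 27 * (C (κ ^ 2) * X 2) ^ 2 +
    256 * (C (1 / 16) * X 0 ^ 2 + C (κ ^ 2 / 4) * X 1) ^ 3

theorem eval_dscP [CharZero K] (hS : SIG_S K) (Θ : L6 K ≃ₗ⁅K⁆ L4 K) (κ : K) (hΘ : IsTheta Θ κ)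
    (x : L6 K) : eval ![s1 x.1, s2 x.1, s3 x.1] (dscP κ) = dsc Θ x := by
  obtain ⟨h1, h2, h3⟩ := hS Θ κ hΘ x
  rw [dsc, h1, h2, h3, dscP, disc4, s3]
  simp only [map_add, map_sub, map_mul, map_pow, eval_C, eval_X, map_ofNat,
    Matrix.cons_val_zero, Matrix.cons_val_one, Matrix.cons_val]
  field_simp
  ring

theorem dsc_mem (Θ : L6 K ≃ₗ⁅K⁆ L4 K) : dsc Θ ∈ PolyOn K (L6 K) := by
  have hbase : MPf (PolyOn K (L6 K)) (fun x : L6 K => (Θ x).1) := by
    intro i j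
    let θ : Module.Dual K (L6 K) :=
      { toFun := fun x => (Θ x).1 i j
        map_add' := fun x y => by rw [map_add]; rfl
        map_smul' := fun c x => by rw [map_smul]; rfl }
    exact Algebra.subset_adjoin ⟨θ, rfl⟩
  have m2 := hbase.mul hbase
  have m3 := m2.mul hbase
  have m4 := m3.mul hbase
  let A := PolyOn K (L6 K)
  have hp : (fun x : L6 K => -((Θ x).1 * (Θ x).1).trace / 2) ∈ A :=
    div_mem (A.neg_mem m2.trace) 2
  have hq : (fun x : L6 K => ((Θ x).1 * (Θ x).1 * (Θ x).1).trace ^ 2 / 9) ∈ A :=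
    div_mem (A.pow_mem m3.trace 2) 9
  have hr : (fun x : L6 K => ((Θ x).1 * (Θ x).1).trace ^ 2 / 8 -
      ((Θ x).1 * (Θ x).1 * (Θ x).1 * (Θ x).1).trace / 4) ∈ A :=
    A.sub_mem (div_mem (A.pow_mem m2.trace 2) 8) (div_mem m4.trace 4)
  have hc : ∀ c : K, (fun _ : L6 K => c) ∈ A := fun c => A.algebraMap_mem c
  have := A.add_mem (A.sub_mem (A.add_mem (A.sub_mem (A.sub_mem
    (A.mul_mem (A.mul_mem (hc 16) (A.pow_mem hp 4)) hr)
    (A.mul_mem (A.mul_mem (hc 4) (A.pow_mem hp 3)) hq))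
    (A.mul_mem (A.mul_mem (hc 128) (A.pow_mem hp 2)) (A.pow_mem hr 2)))
    (A.mul_mem (A.mul_mem (A.mul_mem (hc 144) hp) hq) hr))
    (A.mul_mem (hc 27) (A.pow_mem hq 2)))
    (A.mul_mem (hc 256) (A.pow_mem hr 3))
  exact this

theorem finite_L6 : FiniteDimensional K (L6 K) :=
  inferInstanceAs (FiniteDimensional K (LieAlgebra.Orthogonal.so (Fin 6) K).toSubmodule)

/-- Two nonzero polynomial functions have a common point where they do not vanish. -/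
theorem exists_common [CharZero K] (u w : L6 K → K) (hu : u ∈ PolyOn K (L6 K))
    (hw : w ∈ PolyOn K (L6 K)) (hu0 : ∃ x, u x ≠ 0) (hw0 : ∃ x, w x ≠ 0) :
    ∃ x, u x ≠ 0 ∧ w x ≠ 0 := by
  have := finite_L6 (K := K)
  let e := Module.finBasis K (L6 K)
  let F : (Fin (Module.finrank K (L6 K)) → K) →ₗ[K] L6 K := e.equivFun.symm.toLinearMap
  obtain ⟨P, hP⟩ := exists_poly_linear F hu
  obtain ⟨Q, hQ⟩ := exists_poly_linear F hw
  have hsurj : ∀ x, ∃ v, F v = x := fun x => ⟨e.equivFun x, e.equivFun.symm_apply_apply x⟩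
  have hP0 : P ≠ 0 := by
    rintro rfl
    obtain ⟨x, hx⟩ := hu0
    obtain ⟨v, rfl⟩ := hsurj x
    exact hx (by rw [hP, map_zero])
  have hQ0 : Q ≠ 0 := by
    rintro rfl
    obtain ⟨x, hx⟩ := hw0
    obtain ⟨v, rfl⟩ := hsurj x
    exact hx (by rw [hQ, map_zero])
  by_contra hcon
  push Not at hcon
  apply mul_ne_zero hP0 hQ0
  apply MvPolynomial.funext
  intro v
  rw [map_mul, map_zero, ← hP, ← hQ]
  by_cases h : u (F v) = 0
  · rw [h, zero_mul]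
  · rw [hcon _ h, mul_zero]

/-- A regular element is conjugate to an element of the torus. -/
theorem regular3 (hR : REG3_S K) (Θ : L6 K ≃ₗ⁅K⁆ L4 K) (x : L6 K) (hx : dsc Θ x ≠ 0) :
    ∃ (l : Fin 3 → K) (φ : L6 K ≃ₗ⁅K⁆ L6 K), φ (tor3 Θ l) = x ∧
      ((Θ x).1 * (Θ x).1).trace = ps3 l 2 ∧ ((Θ x).1 * (Θ x).1 * (Θ x).1).trace = ps3 l 3 ∧
      ((Θ x).1 * (Θ x).1 * (Θ x).1 * (Θ x).1).trace = ps3 l 4 := by
  have htr : (Θ x).1.trace = 0 := (mem_sl _).1 (Θ x).2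
  obtain ⟨l, g, h, hgh, hhg, hX⟩ := hR (Θ x).1 htr hx
  have hX' : (Θ x).1 = g * diagonal (dv3 l) * h := hX
  refine ⟨l, (Θ.trans (conj4 g h hgh hhg)).trans Θ.symm, ?_, ?_⟩
  · rw [LieEquiv.trans_apply, LieEquiv.trans_apply, tor3_apply, LieEquiv.apply_symm_apply]
    have h1 : conj4 g h hgh hhg (mk4 (diagonal (dv3 l)) (trace_dv3 l)) = Θ x := by
      apply Subtype.ext
      rw [conj4_coe, hX']
      rfl
    rw [h1, LieEquiv.symm_apply_apply]
  · obtain ⟨t2, t3, t4⟩ := trace_pow_conj g h hhg (dv3 l)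
    rw [hX', t2, t3, t4, sum_dv3, sum_dv3, sum_dv3]
    exact ⟨rfl, rfl, rfl⟩

theorem rel3 [CharZero K] (hT : THETA_S K) (hS : SIG_S K) (hR : REG3_S K) (hN : NRM3_S K) :
    REL3_S K := by
  intro S hSinv g hg hgS hgy
  obtain ⟨Θ, κ, hΘ⟩ := hT
  have hκ : κ ≠ 0 := hΘ.1
  -- a regular point exists
  have hreg : ∃ x, dsc Θ x ≠ 0 := by
    refine ⟨tor3 Θ ![1, 2, 3], ?_⟩
    have h1 : (Θ (tor3 Θ ![1, 2, 3])).1 = 1 * diagonal (dv3 (![1, 2, 3] : Fin 3 → K)) * 1 := by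
      rw [tor3_apply, LieEquiv.apply_symm_apply, Matrix.one_mul, Matrix.mul_one]
      rfl
    obtain ⟨t2, t3, t4⟩ := trace_pow_conj (1 : M4 K) 1 (Matrix.one_mul 1) (dv3 ![1, 2, 3])
    rw [dsc, h1, t2, t3, t4, sum_dv3, sum_dv3, sum_dv3]
    simp only [ps3, disc4, Matrix.cons_val_zero, Matrix.cons_val_one, Matrix.cons_val]
    norm_num
  obtain ⟨x₁, hx₁, hd₁⟩ := exists_common g (dsc Θ) hg (dsc_mem Θ) hgy hreg
  obtain ⟨l₀, θ, hθ, -⟩ := regular3 hR Θ x₁ hd₁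
  obtain ⟨G, hG⟩ := exists_poly_linear ((θ.toLinearEquiv : L6 K →ₗ[K] L6 K) ∘ₗ tor3 Θ) hg
  have hG' : ∀ l, g (θ (tor3 Θ l)) = eval l G := fun l => hG l
  have hG0 : G ≠ 0 := by
    rintro rfl
    apply hx₁
    rw [← hθ, hG', map_zero]
  obtain ⟨Φ₀, hΦ₀, hΦ⟩ := hN κ hκ G hG0
  refine ⟨Φ₀ * dscP κ, ?_, ?_⟩
  · refine mul_ne_zero hΦ₀ ?_
    intro h
    apply hd₁
    rw [← eval_dscP hS Θ κ hΘ, h, map_zero]
  · intro x hx
    rw [map_mul]
    by_cases hd : dsc Θ x = 0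
    · rw [eval_dscP hS Θ κ hΘ, hd, mul_zero]
    obtain ⟨l, φ, hφ, t2, t3, t4⟩ := regular3 hR Θ x hd
    have h7 : tor3 Θ l ∈ S := by
      have := hSinv φ.symm _ hx
      rwa [← hφ, LieEquiv.symm_apply_apply] at this
    have h8 : eval l G = 0 := by
      rw [← hG']
      exact hgS _ (hSinv θ _ h7)
    have h9 := hΦ l h8
    obtain ⟨e1, e2, e3⟩ := hS Θ κ hΘ x
    have h10 : ![-ps3 l 2, (ps3 l 2 ^ 2 / 4 - ps3 l 4) / κ ^ 2, (ps3 l 3 / (3 * κ)) ^ 2] =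
        ![s1 x.1, s2 x.1, s3 x.1] := by
      rw [← t2, ← t3, ← t4, e1, e2, e3, s3]
      have a1 : -(-s1 x.1) = s1 x.1 := neg_neg _
      have a2 : ((-s1 x.1) ^ 2 / 4 - (s1 x.1 ^ 2 / 4 - κ ^ 2 * s2 x.1)) / κ ^ 2 = s2 x.1 := by
        field_simp
        ring
      have a3 : (-3 * κ * Pf x.1 / (3 * κ)) ^ 2 = Pf x.1 ^ 2 := by
        have : -3 * κ * Pf x.1 / (3 * κ) = -Pf x.1 := by field_simp
        rw [this, neg_sq]
      rw [a1, a2, a3]
    rw [h10] at h9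
    rw [h9, zero_mul]

end Pool.Agent.Lib.MP_d55432_al.SIX.H66
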